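import Pool.Agent.Helper98.SPR.Stmts

/-!
# The sparse-root recurrence theorem: passage from the finite theorem to the limit
-/

namespace SPR

open Filter Topology MeasureTheory

theorem near_one {V : Type} {c : V → V → ℕ} {x y : V} (h : c x y ≠ 0) : Near c 1 x y :=
  Or.inr ⟨x, rfl, h⟩

/-- An isolated vertex has the one point pattern as its ball of radius one. -/
theorem ballIso_of_isolated {V : Type} (c : V → V → ℕ) (x : V) (h : ∀ y, c x y = 0) :
    BallIso 1 c x (fun _ _ : Fin 1 => 0) 0 := by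
  have hx : ∀ v, Near c 1 x v → v = x := by
    intro v hv
    rcases hv with hv | ⟨z, hz, hzv⟩
    · exact hv.symm
    · have hz' : x = z := hz
      subst hz'
      exact absurd (h v) hzv
  have hf : ∀ v : Fin 1, Near (fun _ _ : Fin 1 => 0) 1 (0 : Fin 1) v := by
    intro v
    exact Or.inl (Subsingleton.elim _ _)
  refine ⟨⟨fun _ => ⟨0, hf 0⟩, fun _ => ⟨x, Or.inl rfl⟩, ?_, ?_⟩, ?_, ?_⟩
  · intro v
    exact Subtype.ext (hx v.1 v.2).symm
  · intro v
    exact Subtype.ext (Subsingleton.elim _ _)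
  · intro _
    rfl
  · intro u v
    rw [hx u.1 u.2]
    exact h v.1

/-- A vertex with a neighbour does not have the one point pattern as its ball of radius one. -/
theorem not_ballIso_of_adj {V : Type} (c : V → V → ℕ) (x : V) {y : V} (h : c x y ≠ 0) :
    ¬ BallIso 1 c x (fun _ _ : Fin 1 => 0) 0 := by
  rintro ⟨e, -, he⟩
  exact h (he ⟨x, Or.inl rfl⟩ ⟨y, near_one h⟩)

theorem deg_ne_zero {V : Type} {c : V → V → ℕ} {x y : V} (hf : (Function.support (c x)).Finite)
    (h : c x y ≠ 0) : deg c x ≠ 0 := by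
  have h1 : c x y ≤ deg c x := by
    unfold deg
    exact single_le_finsum y hf (fun _ => Nat.zero_le _)
  omega

theorem st_MAIN : ST_FIN → ST_LIM → ST_REC2 → ST_MAIN := by
  intro hF hL hR K Cst a b q j m hK hC ha h1 h2 V _ c S hsym hM hne hiso hsum hnet Ω _ P _ G
    hGs hGf hloc
  obtain ⟨A, hA, hFA⟩ := hF K Cst a b q j m hK hC ha h1 h2
  have hnice : ∀ n, Nice (c n) := fun n => ⟨hsym n, fun x => Set.toFinite _⟩
  have hniceG : ∀ ω, Nice (G ω) := fun ω => ⟨hGs ω, hGf ω⟩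
  have key : ∀ i : ℕ, ∃ k ≥ i, ∃ R,
      (P {ω | ¬ Good A k R (G ω) 0}).toReal ≤ ((1 : ℝ) / 2) ^ i := by
    intro i
    obtain ⟨k0, hk0⟩ := hFA (((1 : ℝ) / 2) ^ i) (by positivity)
    obtain ⟨h, t, R, hh, ht, hall⟩ := hk0 (max k0 i) (le_max_left _ _)
    refine ⟨max k0 i, le_max_right _ _, R, ?_⟩
    refine hL A (((1 : ℝ) / 2) ^ i) (max k0 i) R V c S Ω P G (by positivity) hnice hniceG hne
      hloc ?_
    filter_upwards [hsum h hh, hnet t ht] with n e1 e2
    exact hall (V n) (c n) (S n) (hsym n) (hM n) (hne n) e1 e2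
  choose k hk R hkR using key
  have hBC : ∑' i, P {ω | ¬ Good A (k i) (R i) (G ω) 0} ≠ ⊤ := by
    have hb : ∀ i, P {ω | ¬ Good A (k i) (R i) (G ω) 0} ≤ ENNReal.ofReal (((1 : ℝ) / 2) ^ i) := by
      intro i
      rw [← ENNReal.ofReal_toReal (measure_ne_top P {ω | ¬ Good A (k i) (R i) (G ω) 0})]
      exact ENNReal.ofReal_le_ofReal (hkR i)
    refine ne_top_of_le_ne_top ?_ (ENNReal.tsum_le_tsum hb)
    rw [← ENNReal.ofReal_tsum_of_nonneg (fun i => by positivity)
      (summable_geometric_of_lt_one (by norm_num) (by norm_num))]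
    exact ENNReal.ofReal_ne_top
  have hae := ae_eventually_notMem hBC
  have hdeg : ∀ᵐ ω ∂P, ∃ y, G ω 0 y ≠ 0 := by
    classical
    have hlim := hloc 1 1 (fun _ _ => 0) 0
    have hz : ∀ n, ((S n).filter (fun w => BallIso 1 (c n) w (fun _ _ : Fin 1 => 0) 0)).card = 0 := by
      intro n
      rw [Finset.card_eq_zero, Finset.filter_eq_empty_iff]
      intro w hw
      obtain ⟨y, hy⟩ := hiso n w hw
      exact not_ballIso_of_adj (c n) w hy
    have hconst : Tendsto (fun _ : ℕ => (0 : ℝ)) atTop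
        (𝓝 (P {ω | BallIso 1 (G ω) 0 (fun _ _ : Fin 1 => 0) 0}).toReal) := by
      refine hlim.congr (fun n => ?_)
      rw [hz n]
      simp
    have h0 : (P {ω | BallIso 1 (G ω) 0 (fun _ _ : Fin 1 => 0) 0}).toReal = 0 :=
      (tendsto_nhds_unique hconst tendsto_const_nhds)
    have h00 : P {ω | BallIso 1 (G ω) 0 (fun _ _ : Fin 1 => 0) 0} = 0 := by
      rcases (ENNReal.toReal_eq_zero_iff _).1 h0 with h | h
      · exact h
      · exact absurd h (measure_ne_top P _)
    have hn : ∀ᵐ ω ∂P, ¬ BallIso 1 (G ω) 0 (fun _ _ : Fin 1 => 0) 0 := by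
      rw [ae_iff]
      simpa using h00
    filter_upwards [hn] with ω hω
    by_contra hcon
    push Not at hcon
    exact hω (ballIso_of_isolated (G ω) 0 hcon)
  filter_upwards [hae, hdeg] with ω h3 h4
  obtain ⟨y, hy⟩ := h4
  refine hR A ℕ (G ω) 0 (hniceG ω) (deg_ne_zero (hGf ω 0) hy) ?_
  intro k0
  obtain ⟨n0, hn0⟩ := eventually_atTop.1 h3
  refine ⟨k (max n0 k0), le_trans (le_max_right _ _) (hk _), R (max n0 k0), ?_⟩
  have := hn0 (max n0 k0) (le_max_left _ _)
  by_contra hg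
  exact this hg

end SPR
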